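import Pool.Agent.U515.WH.Vec

/-!
# MP_32446a_an, Q2: a weakly hypercyclic operator satisfying (H) which is not hypercyclic

The operator is a weighted backward shift in the second variable on `c₀(ℕ × ℤ)`: a direct sum of
bilateral weighted shifts `T_m` (layers), `m = 0, 1, 2, ...`. The weights are such that the
compact operator `S`, a weighted backward shift in the first variable, commutes with `T`: the norms
`exp (φ (m, n))` of the basis vectors (in the picture where `T` and `S` are unweighted shifts) are
`exp (m² + s m * h |n| - max n 0)` with `h` tending to infinity very slowly and `0 = s 0 < s 1 < ...`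
bounded. So the quotient of the norms in consecutive layers tends to `0`, which makes `S` compact. In
the layer `0` the negative powers have norm `1`, hence `T` is not hypercyclic. In the other layers
the norms grow, but so slowly that averaging over long blocks of times gives a weakly hypercyclic
vector.
-/

set_option autoImplicit false

namespace Pool.Agent.Results.MP_32446a_an.WeaklyHypercyclic

open Pool.Agent.U515.WH
open scoped ZeroAtInfty

/-- hypothesis (H): a compact operator with dense range commutes with `T` -/
def HypH (𝕂 : Type*) [RCLike 𝕂] {E : Type*} [NormedAddCommGroup E] [NormedSpace 𝕂 E]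
    (T : E →L[𝕂] E) : Prop :=
  ∃ S : E →L[𝕂] E, IsCompactOperator S ∧ DenseRange S ∧ T.comp S = S.comp T

/-- Over the real and over the complex numbers there is a bounded operator on a Banach space which
satisfies (H) and is weakly hypercyclic, but not hypercyclic. -/
theorem result (𝕂 : Type*) [RCLike 𝕂] :
    ∃ T : C₀(ℕ × ℤ, 𝕂) →L[𝕂] C₀(ℕ × ℤ, 𝕂), HypH 𝕂 T ∧ WeaklyHypercyclic 𝕂 T ∧
      ¬ Hypercyclic 𝕂 T :=
  ⟨T 𝕂, ⟨S 𝕂, S_compact, S_denseRange, TS⟩, T_weak, T_not_hypercyclic⟩

end Pool.Agent.Results.MP_32446a_an.WeaklyHypercyclic
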